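import Pool.Agent.MP_e7f0cc_co.NUp

/-! In every normed space of dimension three at most seven lines are at pairwise distance one. -/

theorem Pool.Agent.Results.MP_e7f0cc_co.Norm.result :
    ∀ (E : Type) [NormedAddCommGroup E] [NormedSpace ℝ E], Module.finrank ℝ E = 3 →
      ∀ (k : ℕ) (ℓ : Fin k → AffineSubspace ℝ E), (∀ i, Module.finrank ℝ (ℓ i).direction = 1) →
        (∀ i j, i ≠ j → sInf {d : ℝ | ∃ x ∈ ℓ i, ∃ y ∈ ℓ j, d = dist x y} = 1) → k ≤ 7 :=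
  fun _ _ _ hE k ℓ h1 h2 => Pool.Agent.MP_e7f0cc_co.upperN hE k ℓ h1 h2
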