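import Pool.Agent.Mg.Fe7f0cc.G3eb4aa
import Pool.Agent.Mg.Fe7f0cc.G08316b

/-! The largest number of lines in 3-space at pairwise distance one is seven. -/

theorem Pool.Agent.Results.MP_e7f0cc_co.Seven.result :
    IsGreatest {k : ℕ | ∃ ℓ : Fin k → AffineSubspace ℝ (EuclideanSpace ℝ (Fin 3)),
      (∀ i, Module.finrank ℝ (ℓ i).direction = 1) ∧ Function.Injective ℓ ∧
      ∀ i j, i ≠ j → sInf {d : ℝ | ∃ x ∈ ℓ i, ∃ y ∈ ℓ j, d = dist x y} = 1} 7 :=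
  ⟨Pool.Agent.MP_e7f0cc_co.lower, fun k ⟨ℓ, h1, _, h2⟩ => Pool.Agent.MP_e7f0cc_co.upper k ℓ h1 h2⟩
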